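import Pool.Agent.X317.TwoSections

/-!
# MP_b96d2b_ag, Q2 is false: `β(2, K, 2) = 0` but `U(2, K, 2) = ∅` in genus two

Let `C` be any smooth projective curve of genus two. Then `β(2, K, 2) = 3 g - 3 - 3 = 0`. A stable bundle
`E` of rank two with `det E ≅ K` has degree two and slope one. If it had two sections, these would
trivialise `E` outside the zeros of a section of `det E`, so some section would vanish at a point `p`, and
`𝒪(p) → E` contradicts stability. So `B(2, K, 2) = ∅` and `U(2, K, 2) = ∅`, for every curve of genus two.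

The curve is given by its function field, vector bundles by local frames, see
`Pool/Agent/Helper395/CS/Defs.lean` and `Pool/Agent/Helper395/BC/Defs.lean`; `IsCanonical` is defined in
`Pool/Agent/W525/BNK.lean`.
-/

set_option autoImplicit false

namespace Pool.Agent.Results.MP_b96d2b_ag.GenusTwoException

open Pool.Agent.Helper395.CS hiding genus
open Pool.Agent.Helper395.BC
open Pool.Agent.W525.BNK
open Pool.Agent.X317

/-- `β(2, K, k) = 3 g - 3 - k (k + 1) / 2` -/
def beta (g k : ℕ) : ℤ := 3 * (g : ℤ) - 3 - (k : ℤ) * (k + 1) / 2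

/-- `G_L(2, K, k)` for `k ≥ 2`: the coherent systems `(E, V)` of type `(2, 2 g - 2, k)` with `det E ≅ K`
which are `α`-stable for all large `α`. -/
def GLarge (K : Type) [Field K] [Algebra ℂ K] (k : ℕ) :
    Set (CoherentSystem K 2 (2 * (genus K : ℤ) - 2) k) :=
  {S | IsCanonical S.bundle.det ∧ ∀ᶠ α : ℝ in Filter.atTop, S.IsStable α}

/-- `U(2, K, k)`, for `k ≥ 2`: the `(E, V)` in `G_L(2, K, k)` with `E` stable. -/
def U (K : Type) [Field K] [Algebra ℂ K] (k : ℕ) :
    Set (CoherentSystem K 2 (2 * (genus K : ℤ) - 2) k) :=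
  {S | S ∈ GLarge K k ∧ IsStable S.bundle}

/-- `B(2, K, k)`: the stable bundles of rank two with `det E ≅ K` and `h⁰(E) ≥ k`. -/
def B (K : Type) [Field K] [Algebra ℂ K] (k : ℕ) : Set (Bundle K 2) :=
  {E | IsCanonical E.det ∧ IsStable E ∧ k ≤ Module.finrank ℂ E.sections}

/-- A weak form of the assertion of Q2 in the range `k ≥ 2`: if `β(2, K, k) ≥ 0` then `U(2, K, k)` is not
empty for at least one curve of genus `g`. -/
def WeakQ2 : Prop :=
  ∀ g k : ℕ, 2 ≤ g → 2 ≤ k → 0 ≤ beta g k →
    ∃ (K : Type) (_ : Field K) (_ : Algebra ℂ K), IsCurve K ∧ genus K = g ∧ (U K k).Nonempty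

theorem result :
    beta 2 2 = 0 ∧
    (∀ (K : Type) [Field K] [Algebra ℂ K], IsCurve K → genus K = 2 → B K 2 = ∅ ∧ U K 2 = ∅) ∧
    ¬ WeakQ2 := by
  have key : ∀ (K : Type) [Field K] [Algebra ℂ K], IsCurve K → genus K = 2 →
      B K 2 = ∅ ∧ U K 2 = ∅ := by
    intro K _ _ hK hg
    constructor
    · rw [Set.eq_empty_iff_forall_notMem]
      rintro E ⟨h1, h2, h3⟩
      obtain ⟨V, hV, hV2⟩ := Pool.Agent.Y803.NW.exists_space E h3
      refine sections_le_one hK (E := E) ?_ h2 V hV hV2
      have h4 : E.degree = E.det.degree := rfl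
      rw [h4, h1.1, hg]
      norm_num
    · rw [Set.eq_empty_iff_forall_notMem]
      rintro S ⟨h1, h2⟩
      refine sections_le_one hK (E := S.bundle) ?_ h2 S.space S.le_sections S.finrank_eq
      rw [S.degree_eq, hg]
      norm_num
  refine ⟨by norm_num [beta], key, ?_⟩
  intro h
  obtain ⟨K, _, _, hK, hg, S, hS⟩ := h 2 2 le_rfl le_rfl (by norm_num [beta])
  rw [(key K hK hg).2] at hS
  exact hS

end Pool.Agent.Results.MP_b96d2b_ag.GenusTwoException
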